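import Pool.Agent.TH633.Doyle.Main

/-!
# Doyle's question on hexagonal circle packings

Every locally univalent circle packing of the hexagonal complex is a regular hexagonal packing
or a Doyle spiral. The definitions are in `Pool.Agent.TH633.Doyle.Defs`.

Proof. By the ring lemma the ratio of the radii of adjacent circles is bounded. For a lattice
direction `e` the function `w v = log R (v + e) - log R v` is therefore bounded. As both `R` and
its translate have angle sums `2π`, `w` is harmonic for symmetric conductances in `(0, 1]` on the
edges (integrals of the derivatives of the angles with respect to the logarithms of the radii).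
The triangular lattice with bounded conductances is recurrent, so `w` is constant.
-/

set_option autoImplicit false

namespace Pool.Agent.Results.MP_5725d1_gt.DoyleSpirals

open Pool.Agent.TH633.Doyle

/-- If the circles with centres `z v` and radii `R v` form a locally univalent circle packing
for the hexagonal complex, then `R (n, m) = c * a ^ n * b ^ m` for some `a, b, c > 0`. -/
theorem result (R : ℤ × ℤ → ℝ) (z : ℤ × ℤ → ℂ) (hp : IsCirclePacking R z)
    (hu : IsLocallyUnivalent R z) :
    ∃ a b c : ℝ, 0 < a ∧ 0 < b ∧ 0 < c ∧ ∀ n m : ℤ, R (n, m) = c * a ^ n * b ^ m :=
  doyle hp hu

end Pool.Agent.Results.MP_5725d1_gt.DoyleSpirals
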